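import Pool.Agent.Lib.MP_a964b6_mp.HiC

namespace Pool.Agent.Results.MP_a964b6_mp.HighDim

open Pool.Agent.Lib.MP_a964b6_mp Set

/-- The bond overlap is chaotic as soon as `p d` is large, uniformly in the size of the torus. -/
theorem result (ε : ℝ) (hε : 0 < ε) :
    ∃ C : ℝ, ∀ (d L : ℕ) (x : Fin d → ℤ) (k : Fin d), ∀ p ∈ Ioo (0 : ℝ) 1, C ≤ p * d →
      |corr1 (edgeAt L x k) p| ≤ ε ∧ |corr2 (edgeAt L x k) p| ≤ ε := by
  obtain ⟨C, hC⟩ := c2_small hε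
  refine ⟨C, fun d L x k p hp h => ?_⟩
  have : Fact (1 < 2 * (L + 1)) := ⟨by omega⟩
  obtain ⟨h1, h2, -⟩ := bounds L (edgeAt L x k) hp hp
  have h3 := hC d _ (edgeAt L x k) p hp.1 hp.2 h
  rw [← corr2_eq] at h3
  rw [abs_of_nonneg h1, abs_of_nonneg (h1.trans h2)]
  exact ⟨h2.trans h3, h3⟩

end Pool.Agent.Results.MP_a964b6_mp.HighDim
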