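import Pool.Agent.Lib.MP_a964b6_mp.LogB

namespace Pool.Agent.Results.MP_a964b6_mp.LogGain

open Pool.Agent.Lib.MP_a964b6_mp Set

/-- In every dimension at least two the correlation of the second kind has infinite slope at
`p = 0`, uniformly in the size of the torus. -/
theorem result (d : ℕ) (hd : 2 ≤ d) (L : ℕ) (x : Fin d → ℤ) (k : Fin d) (p : ℝ) (hp : 0 < p)
    (hp5 : p ≤ 1 / 5) (hL : 1 / p ≤ L + 1) :
    |corr2 (edgeAt L x k) p| ≤ 1 - p * Real.log (1 / p) / 80 := by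
  have : Fact (1 < 2 * (L + 1)) := ⟨by omega⟩
  have hp1 : p < 1 := by linarith
  obtain ⟨h1, h2, -⟩ := bounds L (edgeAt L x k) ⟨hp, hp1⟩ ⟨hp, hp1⟩
  have h5 : 5 ≤ ⌊1 / p⌋₊ := Nat.le_floor (by rw [le_div_iff₀ hp]; push_cast; linarith)
  have hK : 1 ≤ Nat.log 5 ⌊1 / p⌋₊ := Nat.log_pos (by norm_num) h5
  have h3 : (5 : ℝ) ^ Nat.log 5 ⌊1 / p⌋₊ ≤ 1 / p :=
    le_trans (by exact_mod_cast Nat.pow_log_le_self 5 (by omega)) (Nat.floor_le (by positivity))
  have h4 : 1 / p ≤ (5 : ℝ) ^ (Nat.log 5 ⌊1 / p⌋₊ + 1) := (Nat.lt_floor_add_one _).le.trans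
    (by exact_mod_cast Nat.lt_pow_succ_log_self (by norm_num) _)
  generalize Nat.log 5 ⌊1 / p⌋₊ = K at hK h3 h4
  have h6 := c2_log (a := (⟨0, by omega⟩ : Fin d)) (b := ⟨1, by omega⟩) (by simp) hp hp1 (K := K)
    (by rwa [le_div_iff₀' hp] at h3)
    (Nat.mul_le_mul_left 2 (by exact_mod_cast h3.trans hL)) (edgeAt L x k)
  have h7 : Real.log 5 ≤ 5 / 3 := by
    have h := Real.log_le_log (by norm_num) (show (5 : ℝ) ^ 3 ≤ 2 ^ 7 by norm_num)
    rw [Real.log_pow, Real.log_pow] at h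
    have := Real.log_two_lt_d9
    push_cast at h
    linarith
  have h8 := Real.log_le_log (by positivity) h4
  rw [Real.log_pow] at h8
  have h9 : (1 : ℝ) ≤ K := by exact_mod_cast hK
  have h10 : Real.log (1 / p) ≤ 10 / 3 * K := by push_cast at h8; nlinarith
  rw [abs_of_nonneg (h1.trans h2), corr2_eq]
  nlinarith

end Pool.Agent.Results.MP_a964b6_mp.LogGain
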