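import Pool.Agent.Lib.MP_a964b6_mp.Torus

namespace Pool.Agent.Results.MP_a964b6_mp.NoiseEquiv

open Pool.Agent.Lib.MP_a964b6_mp Filter Topology Set

/-- The two kinds of perturbation have the same double limit, with a bound uniform in the size. -/
theorem result (d : ℕ) (x : Fin d → ℤ) (k : Fin d) :
    (∀ L : ℕ, ∀ p ∈ Ioo (0 : ℝ) 1, ∀ ε ∈ Ioo (0 : ℝ) 1,
      0 ≤ corr1 (edgeAt L x k) p ∧ corr1 (edgeAt L x k) p ≤ corr2 (edgeAt L x k) p ∧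
        corr2 (edgeAt L x k) p ≤ corr1 (edgeAt L x k) ε + 8 * √ε / p) ∧
    (∃ Λ : ℝ,
      Tendsto (fun p => limsup (fun L => |corr1 (edgeAt L x k) p|) atTop) (𝓝[>] 0) (𝓝 Λ) ∧
      Tendsto (fun p => limsup (fun L => |corr2 (edgeAt L x k) p|) atTop) (𝓝[>] 0) (𝓝 Λ)) ∧
    (limsup (fun p => limsup (fun L => |corr1 (edgeAt L x k) p|) atTop) (𝓝[>] 0) < 1 ↔
      limsup (fun p => limsup (fun L => |corr2 (edgeAt L x k) p|) atTop) (𝓝[>] 0) < 1) := by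
  obtain ⟨Λ, h1, h2⟩ := common_limit (u := fun L => corr1 (edgeAt L x k))
    (v := fun L => corr2 (edgeAt L x k)) fun L p hp ε hε => bounds L _ hp hε
  refine ⟨fun L p hp ε hε => ?_, ⟨Λ, h1, h2⟩, by rw [h1.limsup_eq, h2.limsup_eq]⟩
  obtain ⟨a, b, -, c⟩ := bounds L (edgeAt L x k) hp hε
  exact ⟨a, b, c⟩

end Pool.Agent.Results.MP_a964b6_mp.NoiseEquiv
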