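import Pool.Agent.Lib.MP_a964b6_mp.PG.Scale

namespace Pool.Agent.Results.MP_a964b6_mp.PowerBound

open Pool.Agent.Lib.MP_a964b6_mp Set

/-- In every dimension at least three the correlation of the second kind drops below one by a
power of `p` with exponent less than one, uniformly in the size of the torus. -/
theorem result (d : ℕ) (hd : 3 ≤ d) :
    ∃ c : ℝ, 0 < c ∧ c < 1 ∧ ∀ p : ℝ, 0 < p → p ≤ c →
      ∀ (L : ℕ) (x : Fin d → ℤ) (k : Fin d), 1 ≤ p * ((L : ℝ) + 1) ^ d →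
        |corr2 (edgeAt L x k) p| ≤
          1 - c * p ^ (1 - ((d : ℝ) - 2) / (d * (d - 1))) / √(Real.log (1 / p)) := by
  obtain ⟨c, c0, c1, h⟩ := power_gain2 d hd
  refine ⟨c, c0, by linarith, fun p hp hc L x k hL => ?_⟩
  have : Fact (1 < 2 * (L + 1)) := ⟨by omega⟩
  have hp1 : p < 1 := by linarith
  obtain ⟨h1, h2, -⟩ := bounds L (edgeAt L x k) ⟨hp, hp1⟩ ⟨hp, hp1⟩
  rw [abs_of_nonneg (h1.trans h2), corr2_eq]
  exact h p hp hc _ (L + 1) (by omega) (by exact_mod_cast hL) _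

end Pool.Agent.Results.MP_a964b6_mp.PowerBound
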